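import Mathlib

/-!
# Rings of differential operators of polynomial rings, in the sense of `k`-filtrations

Definitions for the problems MP_12ebf5_al and MP_66748c_al.
-/

set_option autoImplicit false

namespace Pool.Agent.R859.DM

open MvPolynomial

/-- `R = k[x_1, ..., x_n]`. -/
abbrev Rn (k : Type) [Field k] (n : ℕ) : Type := MvPolynomial (Fin n) k

/-- The `k`-linear endomorphisms of `R = k[x_1, ..., x_n]`. -/
abbrev EndR (k : Type) [Field k] (n : ℕ) : Type := Module.End k (Rn k n)

/-- The ring structure (composition) of `End_k R`. -/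
noncomputable instance instRingEndR (k : Type) [Field k] (n : ℕ) : Ring (EndR k n) :=
  Module.End.instRing

/-- The `k`-algebra structure of `End_k R`. -/
noncomputable instance instAlgebraEndR (k : Type) [Field k] (n : ℕ) : Algebra k (EndR k n) :=
  Module.End.instAlgebra k k (Rn k n)

/-- The value `binom (s i) t * x ^ (s - t e_i)` of `D_{t,i}` on the monomial `x ^ s`. -/
noncomputable def divMono (k : Type) [Field k] (n : ℕ) (i : Fin n) (t : ℕ) (s : Fin n →₀ ℕ) :
    Rn k n :=
  monomial (s - Finsupp.single i t) ((Nat.choose (s i) t : ℕ) : k)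

/-- The operator `D_{t,i}` of `k[x_1, ..., x_n]`: it is linear over the polynomials in the other
variables and sends `x_i ^ v` to `binom v t * x_i ^ (v - t)` (which is zero if `v < t`). -/
noncomputable def divD (k : Type) [Field k] (n : ℕ) (i : Fin n) (t : ℕ) : EndR k n :=
  (basisMonomials (Fin n) k).constr k (divMono k n i t)

/-- The ring of differential operators: the subalgebra of `End_k R` generated by the
multiplications by elements of `R` and all `D_{t,i}`. -/
noncomputable def DS (k : Type) [Field k] (n : ℕ) : Subalgebra k (EndR k n) :=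
  Algebra.adjoin k
    (Set.range (fun f : Rn k n => LinearMap.mulLeft k f) ∪
      Set.range (fun q : Fin n × ℕ => divD k n q.1 q.2))

/-- The ring of differential operators as a type: the elements of `DS k n`. -/
abbrev DD (k : Type) [Field k] (n : ℕ) : Type := DS k n

/-- The ring structure of the ring of differential operators. -/
noncomputable instance instRingDD (k : Type) [Field k] (n : ℕ) : Ring (DD k n) :=
  (DS k n).toRing

/-- The ring structure of the ring of differential operators. -/
noncomputable instance instSemiringDD (k : Type) [Field k] (n : ℕ) : Semiring (DD k n) :=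
  (DS k n).toSemiring

/-- The ring of differential operators is an algebra over `k`. -/
noncomputable instance instAlgebraDD (k : Type) [Field k] (n : ℕ) : Algebra k (DD k n) :=
  (DS k n).algebra

/-- `R` is a left module over the ring of differential operators, by applying operators. -/
noncomputable instance instModuleDDRn (k : Type) [Field k] (n : ℕ) : Module (DD k n) (Rn k n) :=
  (DS k n).moduleLeft

/-- Multiplication by `f` as an element of the ring of differential operators. -/
noncomputable def mulD {k : Type} [Field k] {n : ℕ} (f : Rn k n) : DD k n :=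
  (⟨LinearMap.mulLeft k f, Algebra.subset_adjoin (Or.inl ⟨f, rfl⟩)⟩ : DS k n)

/-- `D_{t,i}` as an element of the ring of differential operators. -/
noncomputable def derD {k : Type} [Field k] {n : ℕ} (i : Fin n) (t : ℕ) : DD k n :=
  (⟨divD k n i t, Algebra.subset_adjoin (Or.inr ⟨(i, t), rfl⟩)⟩ : DS k n)

/-- The product `x_1^{a_1} ... x_n^{a_n} D_{t_1,1} ... D_{t_n,n}`. -/
noncomputable def basisD {k : Type} [Field k] {n : ℕ} (a t : Fin n → ℕ) : DD k n :=
  mulD (∏ i, X i ^ a i) * (List.ofFn fun i => derD i (t i)).prod

/-- The Bernstein filtration: `F_s` is the `k`-span of the products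
`x_1^{a_1} ... x_n^{a_n} D_{t_1,1} ... D_{t_n,n}` with `∑ a_i + ∑ t_i ≤ s`. -/
noncomputable def bern (k : Type) [Field k] (n s : ℕ) : Submodule k (DD k n) :=
  Submodule.span k {d | ∃ a t : Fin n → ℕ, ∑ i, a i + ∑ i, t i ≤ s ∧ d = basisD a t}

section Modules

variable (k : Type) [Field k] (n : ℕ) (M : Type) [AddCommGroup M] [Module k M]
  [Module (DD k n) M]

/-- `G` is a `k`-filtration of the left module `M` over the ring of differential operators. -/
structure IsKFiltration (G : ℕ → Submodule k M) : Prop where
  mono : ∀ i, G i ≤ G (i + 1)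
  exhaustive : ∀ m : M, ∃ i, m ∈ G i
  smul_mem : ∀ i j, ∀ d ∈ bern k n i, ∀ m ∈ G j, d • m ∈ G (i + j)

/-- `M` is holonomic: it has a `k`-filtration `G` and a constant `C` such that
`dim_k G_i ≤ C i^n` for all `i ≥ 1`. -/
def IsHolonomic : Prop :=
  ∃ G : ℕ → Submodule k M, IsKFiltration k n M G ∧
    ∃ C : ℕ, ∀ i, 1 ≤ i → Module.rank k (G i) ≤ ((C * i ^ n : ℕ) : Cardinal)

/-- For a set `S` of elements of `M`, the subspace `F_i M_0`, where `M_0` is the `k`-span of `S`. -/
noncomputable def filt (S : Set M) (i : ℕ) : Submodule k M :=
  Submodule.span k {y | ∃ d ∈ bern k n i, ∃ m ∈ Submodule.span k S, y = d • m}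

end Modules

end Pool.Agent.R859.DM
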