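import Mathlib
import Pool.Agent.R859.DM.Defs

/-!
# Computations for one variable, and a construction of modules
-/

set_option autoImplicit false

namespace Pool.Agent.R859.DM

open MvPolynomial Filter

section OneVar

variable {k : Type} [Field k]

/-- The monomial `x ^ w` of `k[x]`. -/
noncomputable def xp (k : Type) [Field k] (w : ℕ) : Rn k 1 := monomial (Finsupp.single 0 w) 1

lemma xp_eq (w : ℕ) : xp k w = X 0 ^ w := by
  rw [xp, X_pow_eq_monomial]

lemma xp_zero : xp k 0 = 1 := by
  rw [xp_eq, pow_zero]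

lemma xp_mul (a b : ℕ) : xp k a * xp k b = xp k (a + b) := by
  rw [xp_eq, xp_eq, xp_eq, pow_add]

lemma divD_xp (t w : ℕ) :
    divD k 1 0 t (xp k w) = ((Nat.choose w t : ℕ) : k) • xp k (w - t) := by
  have h : xp k w = basisMonomials (Fin 1) k (Finsupp.single 0 w) := by
    simp [xp]
  rw [h, divD, Module.Basis.constr_basis, divMono, xp, smul_monomial, smul_eq_mul, mul_one,
    ← Finsupp.single_tsub, Finsupp.single_eq_same]

lemma basis_one_eq (s : Fin 1 →₀ ℕ) : basisMonomials (Fin 1) k s = xp k (s 0) := by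
  have hs : s = Finsupp.single 0 (s 0) := by
    refine Finsupp.ext fun i => ?_
    have : i = 0 := Subsingleton.elim _ _
    subst this
    simp
  rw [xp, ← hs]
  simp

lemma ext_xp {M : Type*} [AddCommMonoid M] [Module k M] {f g : Rn k 1 →ₗ[k] M}
    (h : ∀ w, f (xp k w) = g (xp k w)) : f = g := by
  apply (basisMonomials (Fin 1) k).ext
  intro s
  rw [basis_one_eq]
  exact h _

lemma span_xp : Submodule.span k (Set.range (xp k)) = ⊤ := by
  rw [eq_top_iff, ← (basisMonomials (Fin 1) k).span_eq]
  apply Submodule.span_mono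
  rintro _ ⟨s, rfl⟩
  exact ⟨s 0, (basis_one_eq s).symm⟩

lemma choose_add_cast (p : ℕ) [Fact p.Prime] [CharP k p] (e t v : ℕ) (h : t < p ^ e) :
    ((Nat.choose (p ^ e + v) t : ℕ) : k) = ((Nat.choose v t : ℕ) : k) := by
  rw [Nat.add_choose_eq, Nat.cast_sum, Finset.sum_eq_single (0, t)]
  · simp
  · rintro ⟨i, j⟩ hij hne
    have hij : i + j = t := by simpa using hij
    have hi : i ≠ 0 := by
      rintro rfl
      apply hne
      simp only [Prod.mk.injEq, true_and]
      omega
    have hlt : i < p ^ e := by omega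
    have hdvd : p ∣ Nat.choose (p ^ e) i := by
      apply Nat.Prime.dvd_choose_pow (Fact.out) hi
      omega
    have : ((Nat.choose (p ^ e) i : ℕ) : k) = 0 := (CharP.cast_eq_zero_iff k p _).2 hdvd
    simp only
    rw [Nat.cast_mul, this, zero_mul]
  · intro h
    exact absurd (by simp) h

lemma exists_commute (p : ℕ) [Fact p.Prime] [CharP k p] (d : EndR k 1)
    (hd : d ∈ DS k 1) :
    ∃ e0 : ℕ, ∀ e, e0 ≤ e → ∀ f : Rn k 1, d (xp k (p ^ e) * f) = xp k (p ^ e) * (d f) := by
  unfold DS at hd
  induction hd using Algebra.adjoin_induction with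
  | mem x hx =>
    rcases hx with ⟨f, rfl⟩ | ⟨⟨i, t⟩, rfl⟩
    · refine ⟨0, fun e _ g => ?_⟩
      change f * (xp k (p ^ e) * g) = xp k (p ^ e) * (f * g)
      ring
    · have hi : i = 0 := Subsingleton.elim _ _
      subst hi
      refine ⟨t, fun e he g => ?_⟩
      have hlt : t < p ^ e := lt_of_le_of_lt he (Nat.lt_pow_self (Nat.Prime.one_lt Fact.out))
      have key : (divD k 1 0 t) ∘ₗ (LinearMap.mulLeft k (xp k (p ^ e))) =
          (LinearMap.mulLeft k (xp k (p ^ e))) ∘ₗ (divD k 1 0 t) := by
        apply ext_xp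
        intro w
        rw [LinearMap.comp_apply, LinearMap.comp_apply,
          LinearMap.mulLeft_apply, LinearMap.mulLeft_apply, xp_mul, divD_xp, divD_xp]
        rw [mul_smul_comm, xp_mul, choose_add_cast p e t w hlt]
        by_cases hw : t ≤ w
        · rw [Nat.add_sub_assoc hw]
        · rw [Nat.choose_eq_zero_of_lt (by omega)]
          simp
      exact LinearMap.congr_fun key g
  | algebraMap r =>
    refine ⟨0, fun e _ g => ?_⟩
    change r • (xp k (p ^ e) * g) = xp k (p ^ e) * (r • g)
    rw [mul_smul_comm]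
  | add x y _ _ hx hy =>
    obtain ⟨e1, h1⟩ := hx
    obtain ⟨e2, h2⟩ := hy
    refine ⟨max e1 e2, fun e he g => ?_⟩
    rw [LinearMap.add_apply, h1 e (le_trans (le_max_left _ _) he),
      h2 e (le_trans (le_max_right _ _) he), LinearMap.add_apply, mul_add]
  | mul x y _ _ hx hy =>
    obtain ⟨e1, h1⟩ := hx
    obtain ⟨e2, h2⟩ := hy
    refine ⟨max e1 e2, fun e he g => ?_⟩
    rw [Module.End.mul_apply, h2 e (le_trans (le_max_right _ _) he),
      h1 e (le_trans (le_max_left _ _) he), Module.End.mul_apply]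

lemma derD_smul (t : ℕ) (f : Rn k 1) : (derD 0 t : DD k 1) • f = divD k 1 0 t f := rfl

lemma mulD_smul (g f : Rn k 1) : (mulD g : DD k 1) • f = g * f := rfl

lemma basisD_one (a t : Fin 1 → ℕ) :
    (basisD a t : DD k 1) = mulD (xp k (a 0)) * derD 0 (t 0) := by
  rw [basisD, xp_eq]
  simp

lemma basisD_smul_xp (a t w : ℕ) :
    ((mulD (xp k a) * derD 0 t : DD k 1)) • xp k w =
      ((Nat.choose w t : ℕ) : k) • xp k (a + (w - t)) := by
  rw [mul_smul, derD_smul, divD_xp, mulD_smul, mul_smul_comm, xp_mul]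

lemma bern_one (s : ℕ) : bern k 1 s =
    Submodule.span k {d | ∃ a t : ℕ, a + t ≤ s ∧ d = mulD (xp k a) * derD 0 t} := by
  unfold bern
  congr 1
  ext d
  constructor
  · rintro ⟨a, t, h, rfl⟩
    refine ⟨a 0, t 0, ?_, basisD_one a t⟩
    simpa using h
  · rintro ⟨a, t, h, rfl⟩
    refine ⟨fun _ => a, fun _ => t, ?_, ?_⟩
    · simpa using h
    · rw [basisD_one]

lemma linearIndependent_xp : LinearIndependent k (xp k) := by
  have h := (basisMonomials (Fin 1) k).linearIndependent.comp
    (fun w : ℕ => Finsupp.single (0 : Fin 1) w) (Finsupp.single_injective _)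
  have e : (basisMonomials (Fin 1) k) ∘ (fun w : ℕ => Finsupp.single (0 : Fin 1) w) = xp k := by
    funext w
    simp [xp]
  rw [e] at h
  exact h

/-- A family `G` of subspaces is a `k`-filtration as soon as the products
`x ^ a D_t` behave well. -/
lemma isKFiltration_of {M : Type} [AddCommGroup M] [Module k M] [Module (DD k 1) M]
    [IsScalarTower k (DD k 1) M] (G : ℕ → Submodule k M) (mono : ∀ i, G i ≤ G (i + 1))
    (ex : ∀ m : M, ∃ i, m ∈ G i)
    (h : ∀ a t j, ∀ m ∈ G j, (mulD (xp k a) * derD 0 t : DD k 1) • m ∈ G (a + t + j)) :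
    IsKFiltration k 1 M G where
  mono := mono
  exhaustive := ex
  smul_mem := by
    intro i j d hd m hm
    have hmono : Monotone G := monotone_nat_of_le_succ mono
    rw [bern_one] at hd
    induction hd using Submodule.span_induction with
    | mem x hx =>
      obtain ⟨a, t, hat, rfl⟩ := hx
      exact hmono (by omega) (h a t j m hm)
    | zero => rw [zero_smul]; exact Submodule.zero_mem _
    | add x y _ _ hx hy => rw [add_smul]; exact Submodule.add_mem _ hx hy
    | smul c x _ hx => rw [smul_assoc]; exact Submodule.smul_mem _ _ hx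

end OneVar

section Construction

variable {D W M : Type} [Ring D] [AddCommGroup W] [Module D W] [AddCommGroup M]

/-- The relation saying that `y` is the eventual value of the conjugated action of `d` on `z`. -/
def EvRel (ι : ℕ → W →+ M) (d : D) (z y : M) : Prop :=
  ∀ᶠ m in atTop, ∃ f, ι m f = z ∧ ι m (d • f) = y

lemma EvRel.unique {ι : ℕ → W →+ M} (hinj : ∀ m, Function.Injective (ι m)) {d : D} {z y y' : M}
    (h : EvRel ι d z y) (h' : EvRel ι d z y') : y = y' := by
  obtain ⟨m, ⟨f, hf, hy⟩, ⟨f', hf', hy'⟩⟩ := (h.and h').exists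
  have : f = f' := hinj m (hf.trans hf'.symm)
  subst this
  exact hy.symm.trans hy'

/-- The module structure given by eventual values. -/
@[instance_reducible]
noncomputable def limModule (ι : ℕ → W →+ M) (hinj : ∀ m, Function.Injective (ι m))
    (H : ∀ (d : D) (z : M), ∃ y, EvRel ι d z y) : Module D M where
  smul d z := (H d z).choose
  one_smul z := by
    refine (EvRel.unique hinj (H (1 : D) z).choose_spec (?_ : EvRel ι (1 : D) z z) : _)
    filter_upwards [(H (1 : D) z).choose_spec] with m ⟨f, hf, _⟩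
    exact ⟨f, hf, by rw [one_smul, hf]⟩
  mul_smul d d' z := by
    refine (EvRel.unique hinj (H (d * d') z).choose_spec
      (?_ : EvRel ι (d * d') z (H d (H d' z).choose).choose) : _)
    filter_upwards [(H d (H d' z).choose).choose_spec, (H d' z).choose_spec] with m
      ⟨f, hf, hy⟩ ⟨f', hf', hy'⟩
    refine ⟨f', hf', ?_⟩
    have : d' • f' = f := hinj m (hy'.trans hf.symm)
    rw [mul_smul, this, hy]
  smul_zero d := by
    refine (EvRel.unique hinj (H d (0 : M)).choose_spec (?_ : EvRel ι d (0 : M) 0) : _)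
    filter_upwards with m
    exact ⟨0, map_zero _, by rw [smul_zero, map_zero]⟩
  smul_add d z z' := by
    refine (EvRel.unique hinj (H d (z + z')).choose_spec
      (?_ : EvRel ι d (z + z') ((H d z).choose + (H d z').choose)) : _)
    filter_upwards [(H d z).choose_spec, (H d z').choose_spec] with m
      ⟨f, hf, hy⟩ ⟨f', hf', hy'⟩
    exact ⟨f + f', by rw [map_add, hf, hf'], by rw [smul_add, map_add, hy, hy']⟩
  add_smul d d' z := by
    refine (EvRel.unique hinj (H (d + d') z).choose_spec
      (?_ : EvRel ι (d + d') z ((H d z).choose + (H d' z).choose)) : _)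
    filter_upwards [(H d z).choose_spec, (H d' z).choose_spec] with m
      ⟨f, hf, hy⟩ ⟨f', hf', hy'⟩
    have : f' = f := hinj m (hf'.trans hf.symm)
    subst this
    exact ⟨f', hf, by rw [add_smul, map_add, hy, hy']⟩
  zero_smul z := by
    refine (EvRel.unique hinj (H (0 : D) z).choose_spec (?_ : EvRel ι (0 : D) z 0) : _)
    filter_upwards [(H (0 : D) z).choose_spec] with m ⟨f, hf, _⟩
    exact ⟨f, hf, by rw [zero_smul, map_zero]⟩

lemma limModule_smul_eq (ι : ℕ → W →+ M) (hinj : ∀ m, Function.Injective (ι m))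
    (H : ∀ (d : D) (z : M), ∃ y, EvRel ι d z y) {d : D} {z y : M} (h : EvRel ι d z y) :
    (limModule ι hinj H).toSMul.smul d z = y :=
  EvRel.unique hinj (H d z).choose_spec h

lemma limModule_evRel (ι : ℕ → W →+ M) (hinj : ∀ m, Function.Injective (ι m))
    (H : ∀ (d : D) (z : M), ∃ y, EvRel ι d z y) (d : D) (z : M) :
    EvRel ι d z ((limModule ι hinj H).toSMul.smul d z) :=
  (H d z).choose_spec

end Construction

end Pool.Agent.R859.DM
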