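import Mathlib
import Pool.Agent.R859.DM.Basic

/-!
# A non-holonomic self-extension of `k[x]` in characteristic `p`
-/

set_option autoImplicit false

namespace Pool.Agent.R859.DM

open MvPolynomial Filter

/-- The exponents `p ^ (2 j + 1) + p ^ (4 j + 4)`. -/
def Nx (p j : ℕ) : ℕ := p ^ (2 * j + 1) + p ^ (4 * j + 4)

/-- The partial sums of the series `∑ x ^ (Nx p j)`. -/
noncomputable def vv (k : Type) [Field k] (p E : ℕ) : Rn k 1 :=
  ∑ j ∈ Finset.range E, xp k (Nx p j)

/-- The underlying space of the extension. -/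
def MM (k : Type) [Field k] (_ : ℕ) : Type := Rn k 1 × Rn k 1

noncomputable instance (k : Type) [Field k] (p : ℕ) : AddCommGroup (MM k p) :=
  inferInstanceAs (AddCommGroup (Rn k 1 × Rn k 1))

noncomputable instance (k : Type) [Field k] (p : ℕ) : Module k (MM k p) :=
  inferInstanceAs (Module k (Rn k 1 × Rn k 1))

/-- The elements of the extension. -/
def mk {k : Type} [Field k] (p : ℕ) (f g : Rn k 1) : MM k p := (f, g)

lemma mk_add {k : Type} [Field k] (p : ℕ) (f g f' g' : Rn k 1) :
    mk p f g + mk p f' g' = mk p (f + f') (g + g') := rfl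

lemma mk_smul {k : Type} [Field k] (p : ℕ) (c : k) (f g : Rn k 1) :
    c • mk p f g = mk p (c • f) (c • g) := rfl

lemma mk_zero {k : Type} [Field k] (p : ℕ) : (0 : MM k p) = mk p 0 0 := rfl

lemma mk_inj {k : Type} [Field k] {p : ℕ} {f g f' g' : Rn k 1} (h : mk p f g = mk p f' g') :
    f = f' ∧ g = g' := Prod.ext_iff.1 h

lemma exists_mk {k : Type} [Field k] {p : ℕ} (z : MM k p) : ∃ f g, z = mk p f g := ⟨z.1, z.2, rfl⟩

/-- The coordinate changes. -/
noncomputable def iota (k : Type) [Field k] (p E : ℕ) : (Rn k 1 × Rn k 1) →+ MM k p where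
  toFun q := mk p (q.1 - q.2 * vv k p E) q.2
  map_zero' := by
    rw [mk_zero]
    simp
  map_add' q q' := by
    rw [mk_add]
    congr 1
    simp only [Prod.fst_add, Prod.snd_add]
    ring

section

variable {k : Type} [Field k] {p : ℕ}

lemma iota_apply (E : ℕ) (f g : Rn k 1) :
    iota k p E (f, g) = mk p (f - g * vv k p E) g := rfl

lemma iota_injective (E : ℕ) : Function.Injective (iota k p E) := by
  rintro ⟨f, g⟩ ⟨f', g'⟩ h
  rw [iota_apply, iota_apply] at h
  obtain ⟨h1, h2⟩ := mk_inj h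
  subst h2
  rw [sub_left_inj.1 h1]

variable [Fact p.Prime] [CharP k p]

/-- The commutator of `d` and `v` is eventually constant on each polynomial. -/
lemma bracket_stable (d : DD k 1) :
    ∃ m0 : ℕ, ∀ m, m0 ≤ m → ∀ g : Rn k 1,
      d • (g * vv k p m) - (d • g) * vv k p m = d • (g * vv k p m0) - (d • g) * vv k p m0 := by
  obtain ⟨e0, he0⟩ := exists_commute p d.1 d.2
  refine ⟨e0, fun m hm g => ?_⟩
  induction m, hm using Nat.le_induction with
  | base => rfl
  | succ m hm ih =>
    have h1 : ∀ f : Rn k 1, d • (xp k (p ^ (2 * m + 1)) * f) = xp k (p ^ (2 * m + 1)) * (d • f) :=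
      fun f => he0 _ (by omega) f
    have h2 : ∀ f : Rn k 1, d • (xp k (p ^ (4 * m + 4)) * f) = xp k (p ^ (4 * m + 4)) * (d • f) :=
      fun f => he0 _ (by omega) f
    have hv : vv k p (m + 1) =
        vv k p m + xp k (p ^ (2 * m + 1)) * xp k (p ^ (4 * m + 4)) := by
      rw [vv, Finset.sum_range_succ, Nx, xp_mul, vv]
    have e1 : g * vv k p (m + 1) = g * vv k p m +
        xp k (p ^ (2 * m + 1)) * (xp k (p ^ (4 * m + 4)) * g) := by
      rw [hv]; ring
    rw [e1, smul_add, h1, h2, ← ih, hv]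
    ring

omit [Fact p.Prime] [CharP k p] in
lemma evRel_of (d : DD k 1) (f g h : Rn k 1)
    (hh : ∀ᶠ m in atTop, d • (g * vv k p m) - (d • g) * vv k p m = h) :
    EvRel (iota k p) d (mk p f g) (mk p (d • f + h) (d • g)) := by
  filter_upwards [hh] with m hm
  refine ⟨(f + g * vv k p m, g), ?_, ?_⟩
  · rw [iota_apply, add_sub_cancel_right]
  · change iota k p m (d • (f + g * vv k p m), d • g) = _
    rw [iota_apply, smul_add, ← hm]
    congr 1
    ring

lemma exists_evRel (d : DD k 1) (z : MM k p) : ∃ y, EvRel (iota k p) d z y := by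
  obtain ⟨f, g, rfl⟩ := exists_mk z
  obtain ⟨m0, hm0⟩ := bracket_stable (p := p) d
  exact ⟨_, evRel_of d f g _ (eventually_atTop.2 ⟨m0, fun m hm => hm0 m hm g⟩)⟩

noncomputable instance : Module (DD k 1) (MM k p) :=
  limModule (iota k p) iota_injective exists_evRel

lemma smul_eq_of_evRel {d : DD k 1} {z y : MM k p} (h : EvRel (iota k p) d z y) : d • z = y :=
  limModule_smul_eq (iota k p) iota_injective exists_evRel h

lemma evRel_smul (d : DD k 1) (z : MM k p) : EvRel (iota k p) d z (d • z) :=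
  limModule_evRel (iota k p) iota_injective exists_evRel d z

lemma smul_mk (d : DD k 1) (f g h : Rn k 1)
    (hh : ∀ᶠ m in atTop, d • (g * vv k p m) - (d • g) * vv k p m = h) :
    d • mk p f g = mk p (d • f + h) (d • g) :=
  smul_eq_of_evRel (evRel_of d f g h hh)

variable (p) in
lemma smul_mk' (d : DD k 1) (f g : Rn k 1) :
    ∃ h, d • mk p f g = mk p (d • f + h) (d • g) := by
  obtain ⟨m0, hm0⟩ := bracket_stable (p := p) d
  exact ⟨_, smul_mk d f g _ (eventually_atTop.2 ⟨m0, fun m hm => hm0 m hm g⟩)⟩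

instance : IsScalarTower k (DD k 1) (MM k p) where
  smul_assoc c d z := by
    apply smul_eq_of_evRel
    filter_upwards [evRel_smul d z] with m ⟨q, hq, hy⟩
    refine ⟨q, hq, ?_⟩
    have : (c • d) • q = c • (d • q) := smul_assoc c d q
    rw [this, ← hy]
    obtain ⟨a, b⟩ := d • q
    rw [Prod.smul_mk, iota_apply, iota_apply, mk_smul, smul_sub, smul_mul_assoc]

/-- The inclusion of `k[x]`. -/
noncomputable def incl (k : Type) [Field k] (p : ℕ) [Fact p.Prime] [CharP k p] :
    Rn k 1 →ₗ[DD k 1] MM k p where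
  toFun f := mk p f 0
  map_add' f g := by
    rw [mk_add, add_zero]
  map_smul' d f := by
    have := smul_mk (p := p) d f 0 0 (Eventually.of_forall fun m => by simp)
    rw [add_zero, smul_zero] at this
    exact this.symm

/-- The projection to `k[x]`. -/
noncomputable def proj (k : Type) [Field k] (p : ℕ) [Fact p.Prime] [CharP k p] :
    MM k p →ₗ[DD k 1] Rn k 1 where
  toFun z := Prod.snd (α := Rn k 1) (β := Rn k 1) z
  map_add' f g := rfl
  map_smul' d z := by
    obtain ⟨f, g, rfl⟩ := exists_mk z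
    obtain ⟨h, hh⟩ := smul_mk' p d f g
    rw [hh]
    rfl

lemma isHolonomic_poly : IsHolonomic k 1 (Rn k 1) := by
  refine ⟨fun i => Submodule.span k (Set.range fun w : Fin (i + 1) => xp k w),
    isKFiltration_of _ ?_ ?_ ?_, 2, ?_⟩
  · intro i
    apply Submodule.span_mono
    rintro _ ⟨w, rfl⟩
    exact ⟨⟨w, by omega⟩, rfl⟩
  · intro m
    have hm : m ∈ Submodule.span k (Set.range (xp k)) := by rw [span_xp]; trivial
    induction hm using Submodule.span_induction with
    | mem x hx =>
      obtain ⟨w, rfl⟩ := hx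
      exact ⟨w, Submodule.subset_span ⟨⟨w, by omega⟩, rfl⟩⟩
    | zero => exact ⟨0, Submodule.zero_mem _⟩
    | add x y _ _ hx hy =>
      obtain ⟨i, hi⟩ := hx
      obtain ⟨j, hj⟩ := hy
      refine ⟨max i j, Submodule.add_mem _ ?_ ?_⟩
      · refine Submodule.span_mono ?_ hi
        rintro _ ⟨w, rfl⟩
        exact ⟨⟨w, by omega⟩, rfl⟩
      · refine Submodule.span_mono ?_ hj
        rintro _ ⟨w, rfl⟩
        exact ⟨⟨w, by omega⟩, rfl⟩
    | smul c x _ hx =>
      obtain ⟨i, hi⟩ := hx
      exact ⟨i, Submodule.smul_mem _ _ hi⟩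
  · intro a t j m hm
    induction hm using Submodule.span_induction with
    | mem x hx =>
      obtain ⟨w, rfl⟩ := hx
      rw [basisD_smul_xp]
      exact Submodule.smul_mem _ _ (Submodule.subset_span ⟨⟨a + (w - t), by omega⟩, rfl⟩)
    | zero => rw [smul_zero]; exact Submodule.zero_mem _
    | add x y _ _ hx hy => rw [smul_add]; exact Submodule.add_mem _ hx hy
    | smul c x _ hx => rw [smul_comm]; exact Submodule.smul_mem _ _ hx
  · intro i hi
    refine le_trans (rank_span_le _) ?_
    refine le_trans Cardinal.mk_range_le ?_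
    rw [Cardinal.mk_fin]
    rw [pow_one]
    exact_mod_cast (by omega : i + 1 ≤ 2 * i)

lemma choose_lt_cast (e t v : ℕ) (h : t < p ^ e) :
    ((Nat.choose (v + p ^ e) t : ℕ) : k) = ((Nat.choose v t : ℕ) : k) := by
  rw [add_comm, choose_add_cast p e t v h]

lemma choose_Nx_self (j : ℕ) : ((Nat.choose (Nx p j) (p ^ (2 * j + 1)) : ℕ) : k) = 1 := by
  rw [Nx, choose_lt_cast _ _ _ (Nat.pow_lt_pow_right (Nat.Prime.one_lt Fact.out) (by omega)),
    Nat.choose_self, Nat.cast_one]

lemma choose_Nx_ne (i j : ℕ) (hij : i ≠ j) :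
    ((Nat.choose (Nx p i) (p ^ (2 * j + 1)) : ℕ) : k) = 0 := by
  have hp : 1 < p := Nat.Prime.one_lt Fact.out
  rcases lt_or_gt_of_ne hij with h | h
  · rcases lt_trichotomy (4 * i + 4) (2 * j + 1) with h2 | h2 | h2
    · rw [Nat.choose_eq_zero_of_lt, Nat.cast_zero]
      have h3 : p ^ (2 * i + 1) < p ^ (4 * i + 4) := Nat.pow_lt_pow_right hp (by omega)
      calc Nx p i < p ^ (4 * i + 4) + p ^ (4 * i + 4) := by rw [Nx]; omega
        _ = 2 * p ^ (4 * i + 4) := by ring
        _ ≤ p * p ^ (4 * i + 4) := Nat.mul_le_mul_right _ hp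
        _ = p ^ (4 * i + 4 + 1) := by rw [pow_succ]; ring
        _ ≤ p ^ (2 * j + 1) := Nat.pow_le_pow_right (by omega) (by omega)
    · omega
    · rw [Nx, choose_lt_cast _ _ _ (Nat.pow_lt_pow_right hp h2), Nat.choose_eq_zero_of_lt,
        Nat.cast_zero]
      exact Nat.pow_lt_pow_right hp (by omega)
  · rw [Nx, choose_lt_cast _ _ _ (Nat.pow_lt_pow_right hp (by omega))]
    have := choose_lt_cast (k := k) (p := p) (2 * i + 1) (p ^ (2 * j + 1)) 0
      (Nat.pow_lt_pow_right hp (by omega))
    rw [zero_add] at this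
    rw [this, Nat.choose_eq_zero_of_lt, Nat.cast_zero]
    exact Nat.pow_pos (by omega)

/-- The key computation. -/
lemma smul_z (a j : ℕ) :
    (mulD (xp k a) * derD 0 (p ^ (2 * j + 1)) : DD k 1) • mk p 0 1 =
      mk p (xp k (a + p ^ (4 * j + 4))) 0 := by
  have hp : 1 < p := Nat.Prime.one_lt Fact.out
  have h1 : (mulD (xp k a) * derD 0 (p ^ (2 * j + 1)) : DD k 1) • (1 : Rn k 1) = 0 := by
    rw [← xp_zero, basisD_smul_xp, Nat.choose_eq_zero_of_lt (Nat.pow_pos (by omega)),
      Nat.cast_zero, zero_smul]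
  have key := smul_mk (p := p) (mulD (xp k a) * derD 0 (p ^ (2 * j + 1)) : DD k 1) 0 1
    (xp k (a + p ^ (4 * j + 4))) ?_
  · rw [h1, smul_zero, zero_add] at key
    exact key
  · rw [eventually_atTop]
    refine ⟨j + 1, fun m hm => ?_⟩
    rw [h1, zero_mul, sub_zero, one_mul, vv, Finset.smul_sum,
      Finset.sum_eq_single_of_mem j (Finset.mem_range.2 (by omega))]
    · rw [basisD_smul_xp, choose_Nx_self, one_smul, Nx, Nat.add_sub_cancel_left]
    · intro i _ hi
      rw [basisD_smul_xp, choose_Nx_ne i j hi, zero_smul]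

lemma not_isHolonomic : ¬ IsHolonomic k 1 (MM k p) := by
  rintro ⟨G, hG, C, hC⟩
  have hp : 1 < p := Nat.Prime.one_lt Fact.out
  have hmono : Monotone G := monotone_nat_of_le_succ hG.mono
  obtain ⟨j0, hj0⟩ := hG.exhaustive (mk p 0 1)
  set L := C * (2 + j0) with hL
  set q := p ^ (4 * L + 1) with hq
  have hq1 : 1 ≤ q := Nat.one_le_pow _ _ (by omega)
  have hmem : ∀ (c : Fin (L + 1)) (a : Fin q),
      mk p (xp k (a + p ^ (4 * (L + c) + 4))) 0 ∈ G (2 * q + j0) := by
    intro c a
    rw [← smul_z (k := k) (p := p) a (L + c)]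
    have h1 : p ^ (2 * (L + c) + 1) ≤ q := Nat.pow_le_pow_right (by omega) (by omega)
    refine hG.smul_mem (2 * q) j0 _ ?_ _ hj0
    rw [bern_one]
    exact Submodule.subset_span ⟨a, _, by omega, rfl⟩
  let w : Fin (L + 1) × Fin q → G (2 * q + j0) := fun s => ⟨_, hmem s.1 s.2⟩
  have hli : LinearIndependent k w := by
    let inc : Rn k 1 →ₗ[k] MM k p := LinearMap.inl k (Rn k 1) (Rn k 1)
    have hinc : Function.Injective inc := LinearMap.inl_injective
    have h0 : LinearIndependent k
        (fun s : Fin (L + 1) × Fin q => xp k (s.2 + p ^ (4 * (L + s.1) + 4))) := by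
      have := (linearIndependent_xp (k := k)).comp
        (fun s : Fin (L + 1) × Fin q => ((s.2 : ℕ) + p ^ (4 * (L + s.1) + 4))) ?_
      · exact this
      · have aux : ∀ (c c' : Fin (L + 1)) (a a' : Fin q), (c : ℕ) < c' →
            (a : ℕ) + p ^ (4 * (L + c) + 4) < a' + p ^ (4 * (L + c') + 4) := by
          intro c c' a a' h
          have h1 : p * p ^ (4 * (L + c) + 4) ≤ p ^ (4 * (L + c') + 4) := by
            rw [mul_comm, ← pow_succ]
            exact Nat.pow_le_pow_right (by omega) (by omega)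
          have h2 : q ≤ p ^ (4 * (L + c) + 4) := Nat.pow_le_pow_right (by omega) (by omega)
          have h3 : 2 * p ^ (4 * (L + c) + 4) ≤ p * p ^ (4 * (L + c) + 4) :=
            Nat.mul_le_mul_right _ hp
          omega
        rintro ⟨c, a⟩ ⟨c', a'⟩ h
        simp only at h
        rcases lt_trichotomy (c : ℕ) c' with h1 | h1 | h1
        · exact absurd h (aux c c' a a' h1).ne
        · have hc : c = c' := Fin.ext h1
          subst hc
          have ha : a = a' := Fin.ext (by omega)
          rw [ha]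
        · exact absurd h.symm (aux c' c a' a h1).ne
    have h1 : LinearIndependent k (fun s => inc
        (xp k ((s : Fin (L + 1) × Fin q).2 + p ^ (4 * (L + s.1) + 4)))) :=
      h0.map' inc (LinearMap.ker_eq_bot.2 hinc)
    exact LinearIndependent.of_comp (G (2 * q + j0)).subtype h1
  have hcard := hli.cardinal_le_rank
  have hr := hcard.trans (hC (2 * q + j0) (by omega))
  rw [Cardinal.mk_fintype, Fintype.card_prod, Fintype.card_fin, Fintype.card_fin, pow_one] at hr
  have hr' : (L + 1) * q ≤ C * (2 * q + j0) := by exact_mod_cast hr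
  have h4 : C * (2 * q + j0) ≤ L * q := by
    rw [hL, mul_assoc]
    apply Nat.mul_le_mul_left
    nlinarith
  nlinarith

end

end Pool.Agent.R859.DM
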