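import Mathlib
import Pool.Agent.R859.DM.Basic

/-!
# A holonomic module with non-integral multiplicity in characteristic `p`
-/

set_option autoImplicit false

namespace Pool.Agent.R859.DM

open MvPolynomial Filter

/-- `t_j = p ^ (j ^ 2)`. -/
def tt (p j : ℕ) : ℕ := p ^ (j * j)

/-- `N_m = t_0 + ... + t_{m-1}`. -/
def NN (p m : ℕ) : ℕ := ∑ j ∈ Finset.range m, tt p j

lemma NN_succ (p m : ℕ) : NN p (m + 1) = NN p m + tt p m := Finset.sum_range_succ _ _

/-- The underlying space: basis indexed by the integers. -/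
def MZ (k : Type) [Field k] (_ : ℕ) : Type := ℤ →₀ k

noncomputable instance (k : Type) [Field k] (p : ℕ) : AddCommGroup (MZ k p) :=
  inferInstanceAs (AddCommGroup (ℤ →₀ k))

noncomputable instance (k : Type) [Field k] (p : ℕ) : Module k (MZ k p) :=
  inferInstanceAs (Module k (ℤ →₀ k))

/-- The basis of `MZ`. -/
noncomputable def ez (k : Type) [Field k] (p : ℕ) : Module.Basis ℤ k (MZ k p) :=
  Finsupp.basisSingleOne

/-- The coordinate maps. -/
noncomputable def jm (k : Type) [Field k] (p m : ℕ) : Rn k 1 →ₗ[k] MZ k p :=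
  (basisMonomials (Fin 1) k).constr k (fun s => ez k p ((s 0 : ℤ) - NN p m))

section

variable {k : Type} [Field k] {p : ℕ}

lemma jm_xp (m w : ℕ) : jm k p m (xp k w) = ez k p ((w : ℤ) - NN p m) := by
  have h : xp k w = basisMonomials (Fin 1) k (Finsupp.single 0 w) := by
    simp [xp]
  rw [h, jm, Module.Basis.constr_basis, Finsupp.single_eq_same]

lemma jm_injective (m : ℕ) : Function.Injective (jm k p m) := by
  apply Module.Basis.injective_constr_of_linearIndependent
  apply (ez k p).linearIndependent.comp (fun s : Fin 1 →₀ ℕ => ((s 0 : ℤ) - NN p m))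
  intro s t h
  simp only [sub_left_inj, Nat.cast_inj] at h
  refine Finsupp.ext fun i => ?_
  have : i = 0 := Subsingleton.elim _ _
  rw [this, h]

lemma jm_succ (m : ℕ) (g : Rn k 1) : jm k p (m + 1) (xp k (tt p m) * g) = jm k p m g := by
  have key : (jm k p (m + 1)) ∘ₗ (LinearMap.mulLeft k (xp k (tt p m))) = jm k p m := by
    apply ext_xp
    intro w
    rw [LinearMap.comp_apply, LinearMap.mulLeft_apply, xp_mul, jm_xp, jm_xp, NN_succ]
    congr 1
    push_cast
    ring
  exact LinearMap.congr_fun key g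

/-- The coordinate maps as additive maps. -/
noncomputable def ja (k : Type) [Field k] (p m : ℕ) : Rn k 1 →+ MZ k p :=
  (jm k p m).toAddMonoidHom

lemma ja_apply (m : ℕ) (f : Rn k 1) : ja k p m f = jm k p m f := rfl

lemma le_NN (hp : 1 < p) (m : ℕ) : m ≤ NN p m := by
  induction m with
  | zero => exact Nat.zero_le _
  | succ m ih =>
    rw [NN_succ]
    have : 1 ≤ tt p m := Nat.one_le_pow _ _ (by omega)
    omega

lemma exists_lift (hp : 1 < p) (z : MZ k p) : ∃ m0, ∀ m, m0 ≤ m → ∃ f, jm k p m f = z := by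
  have hz : z ∈ Submodule.span k (Set.range (ez k p)) := by
    rw [(ez k p).span_eq]; trivial
  induction hz using Submodule.span_induction with
  | mem x hx =>
    obtain ⟨w, rfl⟩ := hx
    refine ⟨w.natAbs, fun m hm => ⟨xp k (w + NN p m).toNat, ?_⟩⟩
    have := le_NN hp m
    rw [jm_xp, Int.toNat_of_nonneg (by omega)]
    congr 1
    ring
  | zero => exact ⟨0, fun m _ => ⟨0, map_zero _⟩⟩
  | add x y _ _ hx hy =>
    obtain ⟨m1, h1⟩ := hx
    obtain ⟨m2, h2⟩ := hy
    refine ⟨max m1 m2, fun m hm => ?_⟩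
    obtain ⟨f, hf⟩ := h1 m (le_trans (le_max_left _ _) hm)
    obtain ⟨g, hg⟩ := h2 m (le_trans (le_max_right _ _) hm)
    exact ⟨f + g, by rw [map_add, hf, hg]⟩
  | smul c x _ hx =>
    obtain ⟨m1, h1⟩ := hx
    refine ⟨m1, fun m hm => ?_⟩
    obtain ⟨f, hf⟩ := h1 m hm
    exact ⟨c • f, by rw [map_smul, hf]⟩

variable [Fact p.Prime] [CharP k p]

omit [Fact p.Prime] [CharP k p] in
lemma evRel_of_lift (d : DD k 1) (m0 : ℕ) (f : Rn k 1)
    (hd : ∀ m, m0 ≤ m → ∀ f : Rn k 1, d • (xp k (tt p m) * f) = xp k (tt p m) * (d • f)) :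
    ∀ m, m0 ≤ m → ∃ g, jm k p m g = jm k p m0 f ∧ jm k p m (d • g) = jm k p m0 (d • f) := by
  intro m hm
  induction m, hm using Nat.le_induction with
  | base => exact ⟨f, rfl, rfl⟩
  | succ m hm ih =>
    obtain ⟨g, h1, h2⟩ := ih
    exact ⟨xp k (tt p m) * g, by rw [jm_succ, h1], by rw [hd m hm, jm_succ, h2]⟩

lemma exists_evRelZ (d : DD k 1) (z : MZ k p) : ∃ y, EvRel (ja k p) d z y := by
  obtain ⟨e0, he0⟩ := exists_commute p d.1 d.2
  obtain ⟨m0, hm0⟩ := exists_lift (k := k) (Nat.Prime.one_lt (Fact.out : p.Prime)) z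
  obtain ⟨f, hf⟩ := hm0 (max e0 m0) (le_max_right _ _)
  refine ⟨jm k p (max e0 m0) (d • f), eventually_atTop.2 ⟨max e0 m0, fun m hm => ?_⟩⟩
  obtain ⟨g, h1, h2⟩ := evRel_of_lift d (max e0 m0) f (fun m hm f => he0 (m * m)
    (le_trans (le_trans (le_max_left _ _) hm) (Nat.le_mul_self m)) f) m hm
  exact ⟨g, h1.trans hf, h2⟩

noncomputable instance instModuleDMZ : Module (DD k 1) (MZ k p) :=
  limModule (ja k p) jm_injective exists_evRelZ

lemma smul_eq_of_evRelZ {d : DD k 1} {z y : MZ k p} (h : EvRel (ja k p) d z y) : d • z = y :=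
  limModule_smul_eq (ja k p) jm_injective exists_evRelZ h

lemma evRelZ_smul (d : DD k 1) (z : MZ k p) : EvRel (ja k p) d z (d • z) :=
  limModule_evRel (ja k p) jm_injective exists_evRelZ d z

instance : IsScalarTower k (DD k 1) (MZ k p) where
  smul_assoc c d z := by
    apply smul_eq_of_evRelZ
    filter_upwards [evRelZ_smul d z] with m ⟨q, hq, hy⟩
    refine ⟨q, hq, ?_⟩
    have : (c • d) • q = c • (d • q) := smul_assoc c d q
    rw [this, ← hy, ja_apply, ja_apply, map_smul]

lemma choose_NN_stable (t m : ℕ) (ht : t < tt p m) (m' : ℕ) (hm : m ≤ m') :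
    ∀ w : ℕ, ((Nat.choose (w + NN p m') t : ℕ) : k) = ((Nat.choose (w + NN p m) t : ℕ) : k) := by
  intro w
  induction m', hm using Nat.le_induction with
  | base => rfl
  | succ m' hm ih =>
    have h1 : t < p ^ (m' * m') := lt_of_lt_of_le ht
      (Nat.pow_le_pow_right (Nat.Prime.pos Fact.out) (Nat.mul_le_mul hm hm))
    have h2 : w + NN p (m' + 1) = p ^ (m' * m') + (w + NN p m') := by
      rw [NN_succ, tt]; ring
    rw [h2, choose_add_cast p (m' * m') t _ h1, ih]

lemma smul_ez (a t m : ℕ) (w : ℤ) (v : ℕ) (hv : (v : ℤ) = w + NN p m) (ht : t < tt p m) :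
    (mulD (xp k a) * derD 0 t : DD k 1) • ez k p w =
      ((Nat.choose v t : ℕ) : k) • ez k p (w + a - t) := by
  apply smul_eq_of_evRelZ
  rw [EvRel, eventually_atTop]
  refine ⟨m, fun m' hm => ⟨xp k (v + (NN p m' - NN p m)), ?_, ?_⟩⟩
  · have hmono : NN p m ≤ NN p m' :=
      Finset.sum_le_sum_of_subset (Finset.range_subset_range.2 hm)
    rw [ja_apply, jm_xp]
    congr 1
    push_cast [hmono]
    omega
  · have hmono : NN p m ≤ NN p m' :=
      Finset.sum_le_sum_of_subset (Finset.range_subset_range.2 hm)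
    have hc : ((Nat.choose (v + (NN p m' - NN p m)) t : ℕ) : k) = ((Nat.choose v t : ℕ) : k) := by
      clear hv
      induction m', hm using Nat.le_induction with
      | base => rw [Nat.sub_self, Nat.add_zero]
      | succ m' hm ih =>
        have hmono' : NN p m ≤ NN p m' :=
          Finset.sum_le_sum_of_subset (Finset.range_subset_range.2 hm)
        have h1 : t < p ^ (m' * m') := lt_of_lt_of_le ht
          (Nat.pow_le_pow_right (Nat.Prime.pos Fact.out) (Nat.mul_le_mul hm hm))
        have h2 : v + (NN p (m' + 1) - NN p m) = p ^ (m' * m') + (v + (NN p m' - NN p m)) := by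
          rw [NN_succ, tt] at *; omega
        rw [h2, choose_add_cast p (m' * m') t _ h1, ih hmono']
    rw [ja_apply, basisD_smul_xp, map_smul, jm_xp, hc]
    by_cases h0 : v + (NN p m' - NN p m) < t
    · rw [← hc, Nat.choose_eq_zero_of_lt h0, Nat.cast_zero, zero_smul, zero_smul]
    · congr 2
      push_cast [hmono, not_lt.1 h0]
      omega

omit [Fact p.Prime] in
lemma lt_tt (hp : 1 < p) (t : ℕ) : t < tt p t :=
  lt_of_le_of_lt (Nat.le_mul_self t) (Nat.lt_pow_self hp)

/-- The exponents `t` with `D_t e_0 ≠ 0`. -/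
def InT (k : Type) [Field k] (p t : ℕ) : Prop := ((Nat.choose (NN p t) t : ℕ) : k) ≠ 0

lemma inT_iff (t m : ℕ) (ht : t < tt p m) :
    InT k p t ↔ ((Nat.choose (NN p m) t : ℕ) : k) ≠ 0 := by
  have hp : 1 < p := Nat.Prime.one_lt Fact.out
  rw [InT]
  have h1 := choose_NN_stable (k := k) (p := p) t m ht (max t m) (le_max_right _ _) 0
  have h2 := choose_NN_stable (k := k) (p := p) t t (lt_tt hp t) (max t m) (le_max_left _ _) 0
  rw [zero_add, zero_add] at h1 h2
  rw [← h1, ← h2]

variable (k p) in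
/-- The set of indices occurring in `F_i e_0`. -/
def UU (i : ℕ) : Set ℤ := {u | ∃ a t : ℕ, a + t ≤ i ∧ InT k p t ∧ u = (a : ℤ) - t}

lemma filt_eq (i : ℕ) :
    filt k 1 (MZ k p) {ez k p 0} i = Submodule.span k ((ez k p) '' (UU k p i)) := by
  have hp : 1 < p := Nat.Prime.one_lt Fact.out
  have hact : ∀ a t : ℕ, (mulD (xp k a) * derD 0 t : DD k 1) • ez k p 0 =
      ((Nat.choose (NN p t) t : ℕ) : k) • ez k p ((a : ℤ) - t) := by
    intro a t
    have := smul_ez (k := k) (p := p) a t t 0 (NN p t) (by rw [zero_add]) (lt_tt hp t)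
    rw [zero_add] at this
    exact this
  apply le_antisymm
  · apply Submodule.span_le.2
    rintro y ⟨d, hd, m, hm, rfl⟩
    obtain ⟨c, rfl⟩ := Submodule.mem_span_singleton.1 hm
    rw [bern_one] at hd
    change d • c • ez k p 0 ∈ Submodule.span k ((ez k p) '' (UU k p i))
    induction hd using Submodule.span_induction with
    | mem x hx =>
      obtain ⟨a, t, hat, rfl⟩ := hx
      rw [smul_comm, hact]
      by_cases h : InT k p t
      · exact Submodule.smul_mem _ _ (Submodule.smul_mem _ _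
          (Submodule.subset_span ⟨_, ⟨a, t, hat, h, rfl⟩, rfl⟩))
      · rw [InT, not_not] at h
        rw [h, zero_smul, smul_zero]
        exact Submodule.zero_mem _
    | zero => rw [zero_smul]; exact Submodule.zero_mem _
    | add x y _ _ hx hy => rw [add_smul]; exact Submodule.add_mem _ hx hy
    | smul r x _ hx => rw [smul_assoc]; exact Submodule.smul_mem _ _ hx
  · apply Submodule.span_le.2
    rintro _ ⟨u, ⟨a, t, hat, h, rfl⟩, rfl⟩
    have h1 : (mulD (xp k a) * derD 0 t : DD k 1) • ez k p 0 ∈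
        filt k 1 (MZ k p) {ez k p 0} i := by
      apply Submodule.subset_span
      refine ⟨_, ?_, ez k p 0, Submodule.mem_span_singleton_self _, rfl⟩
      rw [bern_one]
      exact Submodule.subset_span ⟨a, t, hat, rfl⟩
    rw [hact] at h1
    have h2 := Submodule.smul_mem _ (((Nat.choose (NN p t) t : ℕ) : k)⁻¹) h1
    rwa [smul_smul, inv_mul_cancel₀ h, one_smul] at h2

omit [Fact p.Prime] [CharP k p] in
lemma UU_bound {i : ℕ} {u : ℤ} (hu : u ∈ UU k p i) : -(i : ℤ) ≤ u ∧ u ≤ i := by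
  obtain ⟨a, t, hat, _, rfl⟩ := hu
  omega

lemma UU_finite (i : ℕ) : (UU k p i).Finite :=
  (Set.finite_Icc (-(i : ℤ)) i).subset fun _ hu => UU_bound hu

lemma finrank_filt (i : ℕ) :
    Module.finrank k (filt k 1 (MZ k p) {ez k p 0} i) = (UU k p i).ncard := by
  have hfin := UU_finite (k := k) (p := p) i
  have := hfin.fintype
  rw [filt_eq, Set.image_eq_range, finrank_span_eq_card, Set.ncard_eq_toFinset_card',
    Set.toFinset_card]
  exact (ez k p).linearIndependent.comp (fun u : UU k p i => (u : ℤ)) Subtype.val_injective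

lemma finite_filt (i : ℕ) : Module.Finite k (filt k 1 (MZ k p) {ez k p 0} i) := by
  rw [filt_eq]
  have hfin := UU_finite (k := k) (p := p) i
  exact Module.Finite.span_of_finite k (hfin.image _)

omit [Fact p.Prime] [CharP k p] in
lemma inT_zero : InT k p 0 := by
  rw [InT, Nat.choose_zero_right, Nat.cast_one]
  exact one_ne_zero

lemma NN_lt_tt (hp : 1 < p) (j : ℕ) : j * NN p j ≤ tt p j := by
  induction j with
  | zero => simp
  | succ j ih =>
    rw [NN_succ]
    have h1 : tt p (j + 1) = tt p j * p ^ (2 * j + 1) := by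
      rw [tt, tt, ← pow_add]; congr 1; ring
    have h2 : 2 * (j + 1) ≤ p ^ (2 * j + 1) := by
      have h3 : 2 * j + 1 < p ^ (2 * j + 1) := Nat.lt_pow_self hp
      omega
    have h4 : (j + 1) * (NN p j + tt p j) ≤ tt p j * (2 * (j + 1)) := by
      rcases Nat.eq_zero_or_pos j with rfl | hj
      · simp only [NN, Finset.range_zero, Finset.sum_empty]
        omega
      · have h5 : NN p j ≤ tt p j := le_trans (Nat.le_mul_of_pos_left _ hj) ih
        nlinarith
    rw [h1]
    exact le_trans h4 (Nat.mul_le_mul_left _ h2)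

lemma inT_tt (j : ℕ) : InT k p (tt p j) := by
  have hp : 1 < p := Nat.Prime.one_lt Fact.out
  have h1 : tt p j < tt p (j + 1) := Nat.pow_lt_pow_right hp (by nlinarith)
  rw [inT_iff (tt p j) (j + 1) h1, NN_succ, ← Nat.choose_symm_add, add_comm]
  rcases Nat.eq_zero_or_pos j with rfl | hj
  · simp [NN]
  · have h2 : NN p j < p ^ (j * j) := by
      have h3 := NN_lt_tt hp j
      have h4 : 1 ≤ NN p j := le_trans hj (le_NN hp j)
      rw [tt] at h3
      rcases Nat.lt_or_ge j 2 with h5 | h5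
      · have : j = 1 := by omega
        subst this
        simp [NN, tt]
        exact hp
      · nlinarith
    rw [tt, choose_add_cast p (j * j) _ _ h2, Nat.choose_self, Nat.cast_one]
    exact one_ne_zero

lemma inT_struct {t m : ℕ} (h : InT k p t) (ht : t < tt p (m + 1)) :
    t ≤ NN p m ∨ (tt p m ≤ t ∧ t ≤ NN p m + tt p m) := by
  rcases Nat.lt_or_ge t (tt p m) with h1 | h1
  · left
    by_contra h2
    rw [inT_iff t m h1, Nat.choose_eq_zero_of_lt (by omega)] at h
    exact h Nat.cast_zero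
  · right
    refine ⟨h1, ?_⟩
    by_contra h2
    rw [inT_iff t (m + 1) ht, Nat.choose_eq_zero_of_lt (by rw [NN_succ]; omega)] at h
    exact h Nat.cast_zero

/-- The upper bound for the dimension. -/
lemma ncard_le (i m : ℕ) (h1 : tt p m ≤ i) (h2 : i < tt p (m + 1)) :
    2 * (UU k p i).ncard ≤ 3 * (i + 1) + 4 * NN p m := by
  have hsub : UU k p i ⊆ ((Finset.Icc (0 : ℤ) i ∪ Finset.Icc (-(NN p m : ℤ)) (-1)) ∪
      Finset.Icc (-((NN p m + tt p m : ℕ) : ℤ)) (min (-1) ((i : ℤ) - 2 * tt p m)) : Finset ℤ) := by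
    rintro u ⟨a, t, hat, hT, rfl⟩
    rw [Finset.mem_coe, Finset.mem_union, Finset.mem_union, Finset.mem_Icc, Finset.mem_Icc,
      Finset.mem_Icc]
    rcases le_or_gt 0 ((a : ℤ) - t) with h0 | h0
    · left; left
      omega
    · rcases inT_struct hT (m := m) (by omega) with h3 | h3
      · left; right
        omega
      · right
        rw [le_min_iff]
        omega
  have hcard := Set.ncard_le_ncard hsub (Finset.finite_toSet _)
  rw [Set.ncard_coe_finset] at hcard
  have h3 := Finset.card_union_le (Finset.Icc (0 : ℤ) i ∪ Finset.Icc (-(NN p m : ℤ)) (-1))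
    (Finset.Icc (-((NN p m + tt p m : ℕ) : ℤ)) (min (-1) ((i : ℤ) - 2 * tt p m)))
  have h4 := Finset.card_union_le (Finset.Icc (0 : ℤ) i) (Finset.Icc (-(NN p m : ℤ)) (-1))
  rw [Int.card_Icc, Int.card_Icc] at h4
  rw [Int.card_Icc] at h3
  omega

/-- A second upper bound. -/
lemma ncard_le' (i m : ℕ) (h2 : i < tt p (m + 1)) :
    (UU k p i).ncard ≤ (i + 1) + NN p (m + 1) := by
  have hsub : UU k p i ⊆ (Finset.Icc (-(NN p (m + 1) : ℤ)) i : Finset ℤ) := by
    rintro u ⟨a, t, hat, hT, rfl⟩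
    rw [Finset.mem_coe, Finset.mem_Icc, NN_succ]
    rcases inT_struct hT (m := m) (by omega) with h3 | h3 <;> omega
  have hcard := Set.ncard_le_ncard hsub (Finset.finite_toSet _)
  rw [Set.ncard_coe_finset, Int.card_Icc] at hcard
  omega

/-- The lower bound for the dimension. -/
lemma le_ncard (m : ℕ) : 3 * tt p m + 1 ≤ (UU k p (2 * tt p m)).ncard := by
  have hsub : ((Finset.Icc (-(tt p m : ℤ)) (2 * tt p m : ℕ) : Finset ℤ) : Set ℤ) ⊆
      UU k p (2 * tt p m) := by
    intro u hu
    rw [Finset.mem_coe, Finset.mem_Icc] at hu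
    rcases le_or_gt 0 u with h0 | h0
    · exact ⟨u.toNat, 0, by omega, inT_zero, by omega⟩
    · exact ⟨(u + tt p m).toNat, tt p m, by omega, inT_tt m, by omega⟩
  have hcard := Set.ncard_le_ncard hsub (UU_finite _)
  rw [Set.ncard_coe_finset, Int.card_Icc] at hcard
  omega

lemma isHolonomicZ : IsHolonomic k 1 (MZ k p) := by
  have hp : 1 < p := Nat.Prime.one_lt Fact.out
  refine ⟨fun i => Submodule.span k (Set.range fun w : Finset.Icc (-(i : ℤ)) i => ez k p w),
    isKFiltration_of _ ?_ ?_ ?_, 3, ?_⟩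
  · intro i
    apply Submodule.span_mono
    rintro _ ⟨⟨w, hw⟩, rfl⟩
    rw [Finset.mem_Icc] at hw
    exact ⟨⟨w, by rw [Finset.mem_Icc]; push_cast; omega⟩, rfl⟩
  · intro m
    have hm : m ∈ Submodule.span k (Set.range (ez k p)) := by
      rw [(ez k p).span_eq]; trivial
    induction hm using Submodule.span_induction with
    | mem x hx =>
      obtain ⟨w, rfl⟩ := hx
      exact ⟨w.natAbs, Submodule.subset_span ⟨⟨w, by rw [Finset.mem_Icc]; omega⟩, rfl⟩⟩
    | zero => exact ⟨0, Submodule.zero_mem _⟩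
    | add x y _ _ hx hy =>
      obtain ⟨i, hi⟩ := hx
      obtain ⟨j, hj⟩ := hy
      refine ⟨max i j, Submodule.add_mem _ ?_ ?_⟩
      · refine Submodule.span_mono ?_ hi
        rintro _ ⟨⟨w, hw⟩, rfl⟩
        rw [Finset.mem_Icc] at hw
        exact ⟨⟨w, by rw [Finset.mem_Icc]; omega⟩, rfl⟩
      · refine Submodule.span_mono ?_ hj
        rintro _ ⟨⟨w, hw⟩, rfl⟩
        rw [Finset.mem_Icc] at hw
        exact ⟨⟨w, by rw [Finset.mem_Icc]; omega⟩, rfl⟩
    | smul c x _ hx =>
      obtain ⟨i, hi⟩ := hx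
      exact ⟨i, Submodule.smul_mem _ _ hi⟩
  · intro a t j m hm
    induction hm using Submodule.span_induction with
    | mem x hx =>
      obtain ⟨⟨w, hw⟩, rfl⟩ := hx
      rw [Finset.mem_Icc] at hw
      have h1 := le_NN hp (max t j)
      have h2 : t < tt p (max t j) := lt_of_lt_of_le (lt_tt hp t)
        (Nat.pow_le_pow_right (by omega) (Nat.mul_le_mul (le_max_left _ _) (le_max_left _ _)))
      rw [smul_ez a t (max t j) w (w + NN p (max t j)).toNat (by omega) h2]
      exact Submodule.smul_mem _ _ (Submodule.subset_span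
        ⟨⟨w + a - t, by rw [Finset.mem_Icc]; push_cast; omega⟩, rfl⟩)
    | zero => rw [smul_zero]; exact Submodule.zero_mem _
    | add x y _ _ hx hy => rw [smul_add]; exact Submodule.add_mem _ hx hy
    | smul c x _ hx => rw [smul_comm]; exact Submodule.smul_mem _ _ hx
  · intro i hi
    refine le_trans (rank_span_le _) ?_
    refine le_trans Cardinal.mk_range_le ?_
    rw [Cardinal.mk_fintype, Fintype.card_coe, Int.card_Icc]
    rw [pow_one]
    exact_mod_cast (by omega : (((i : ℤ) + 1 - (-(i : ℤ))).toNat) ≤ 3 * i)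

lemma span_ez : Submodule.span (DD k 1) {ez k p 0} = ⊤ := by
  have hp : 1 < p := Nat.Prime.one_lt Fact.out
  have hz : ∀ w : ℤ, ez k p w ∈ Submodule.span (DD k 1) {ez k p 0} := by
    intro w
    have h1 : ∀ i, ∀ y ∈ filt k 1 (MZ k p) {ez k p 0} i,
        y ∈ Submodule.span (DD k 1) {ez k p 0} := by
      intro i y hy
      have : filt k 1 (MZ k p) {ez k p 0} i ≤
          (Submodule.span (DD k 1) {ez k p 0}).restrictScalars k := by
        apply Submodule.span_le.2
        rintro z ⟨d, _, m, hm, rfl⟩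
        obtain ⟨c, rfl⟩ := Submodule.mem_span_singleton.1 hm
        rw [smul_comm]
        have h3 : d • ez k p 0 ∈ Submodule.span (DD k 1) {ez k p 0} :=
          Submodule.smul_mem _ _ (Submodule.mem_span_singleton_self _)
        exact Submodule.smul_mem ((Submodule.span (DD k 1) {ez k p 0}).restrictScalars k) c h3
      exact this hy
    apply h1 (2 * tt p w.natAbs)
    rw [filt_eq]
    refine Submodule.subset_span ⟨w, ?_, rfl⟩
    have h4 := lt_tt hp w.natAbs
    rcases le_or_gt 0 w with h0 | h0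
    · exact ⟨w.toNat, 0, by omega, inT_zero, by omega⟩
    · exact ⟨(w + tt p w.natAbs).toNat, tt p w.natAbs, by omega, inT_tt _, by omega⟩
  rw [eq_top_iff]
  intro z _
  have hz' : z ∈ Submodule.span k (Set.range (ez k p)) := by
    rw [(ez k p).span_eq]; trivial
  have : Submodule.span k (Set.range (ez k p)) ≤
      (Submodule.span (DD k 1) {ez k p 0}).restrictScalars k := by
    apply Submodule.span_le.2
    rintro _ ⟨w, rfl⟩
    exact hz w
  exact this hz'

/-- The normalised dimension function. -/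
noncomputable def uu (k : Type) [Field k] (p : ℕ) [Fact p.Prime] [CharP k p] (i : ℕ) : ℝ :=
  (Module.finrank k (filt k 1 (MZ k p) {ez k p 0} i) : ℝ) / (i : ℝ)

lemma exists_interval (hp : 1 < p) (K i : ℕ) (hi : tt p K ≤ i) :
    ∃ m, K ≤ m ∧ tt p m ≤ i ∧ i < tt p (m + 1) := by
  have hex : ∃ m, i < tt p m := ⟨i, lt_tt hp i⟩
  classical
  have h1 := Nat.find_spec hex
  have h2 : K < Nat.find hex := by
    by_contra h
    have h3 : tt p (Nat.find hex) ≤ tt p K :=
      Nat.pow_le_pow_right (by omega) (Nat.mul_le_mul (not_lt.1 h) (not_lt.1 h))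
    omega
  refine ⟨Nat.find hex - 1, by omega, ?_, ?_⟩
  · have := Nat.find_min hex (m := Nat.find hex - 1) (by omega)
    omega
  · rw [Nat.sub_add_cancel (by omega)]
    exact h1

lemma uu_le (K i : ℕ) (hK : 1 ≤ K) (hi : tt p K ≤ i) : uu k p i ≤ 3 / 2 + 4 / K := by
  have hp : 1 < p := Nat.Prime.one_lt Fact.out
  obtain ⟨m, hKm, h1, h2⟩ := exists_interval hp K i hi
  have h3 := ncard_le (k := k) (p := p) i m h1 h2
  have h4 := NN_lt_tt hp m
  have hKi : K ≤ i := le_trans (lt_tt hp K).le hi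
  rw [uu, finrank_filt]
  have hi0 : (0 : ℝ) < i := by exact_mod_cast (by omega : 0 < i)
  have hK0 : (0 : ℝ) < K := by exact_mod_cast (by omega : 0 < K)
  rw [div_le_iff₀ hi0]
  have h3' : 2 * ((UU k p i).ncard : ℝ) ≤ 3 * (i + 1) + 4 * NN p m := by exact_mod_cast h3
  have h4' : (K : ℝ) * NN p m ≤ i := by
    exact_mod_cast le_trans (le_trans (Nat.mul_le_mul_right _ hKm) h4) h1
  have h5' : (K : ℝ) ≤ i := by exact_mod_cast hKi
  have h6 : (NN p m : ℝ) ≤ i / K := by
    rw [le_div_iff₀ hK0]; linarith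
  have h7 : (1 : ℝ) ≤ i / K := by
    rw [le_div_iff₀ hK0]; linarith
  have h8 : (3 / 2 + 4 / (K : ℝ)) * i = 3 / 2 * i + 4 * (i / K) := by ring
  rw [h8]
  linarith

lemma le_uu (m : ℕ) : 3 / 2 ≤ uu k p (2 * tt p m) := by
  have hp : 1 < p := Nat.Prime.one_lt Fact.out
  have h1 := le_ncard (k := k) (p := p) m
  have h2 : 1 ≤ tt p m := Nat.one_le_pow _ _ (by omega)
  rw [uu, finrank_filt]
  have h3 : (0 : ℝ) < ((2 * tt p m : ℕ) : ℝ) := by exact_mod_cast (by omega : 0 < 2 * tt p m)
  rw [le_div_iff₀ h3]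
  have h4 : (3 * tt p m + 1 : ℝ) ≤ ((UU k p (2 * tt p m)).ncard : ℝ) := by exact_mod_cast h1
  push_cast
  linarith

lemma uu_small (m : ℕ) (hm : 16 ≤ m) : uu k p (tt p m - 1) ≤ 5 / 4 := by
  have hp : 1 < p := Nat.Prime.one_lt Fact.out
  have h0 := lt_tt hp m
  obtain ⟨m', rfl⟩ : ∃ m', m = m' + 1 := ⟨m - 1, by omega⟩
  have h1 := ncard_le' (k := k) (p := p) (tt p (m' + 1) - 1) m' (by omega)
  have h2 := NN_lt_tt hp (m' + 1)
  rw [uu, finrank_filt]
  have h3 : (0 : ℝ) < ((tt p (m' + 1) - 1 : ℕ) : ℝ) := by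
    exact_mod_cast (by omega : 0 < tt p (m' + 1) - 1)
  rw [div_le_iff₀ h3]
  have h4 : 16 * NN p (m' + 1) ≤ tt p (m' + 1) := le_trans (Nat.mul_le_mul_right _ hm) h2
  have h5 : 4 * (UU k p (tt p (m' + 1) - 1)).ncard ≤ 5 * (tt p (m' + 1) - 1) := by omega
  have h6 : 4 * ((UU k p (tt p (m' + 1) - 1)).ncard : ℝ) ≤ 5 * ((tt p (m' + 1) - 1 : ℕ) : ℝ) := by
    exact_mod_cast h5
  linarith

lemma tt_tendsto (hp : 1 < p) : Tendsto (tt p) atTop atTop :=
  tendsto_atTop_mono (fun t => (lt_tt hp t).le) tendsto_id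

lemma limsup_uu : limsup (uu k p) atTop = 3 / 2 := by
  have hp : 1 < p := Nat.Prime.one_lt Fact.out
  have hnn : ∀ i, 0 ≤ uu k p i := fun i => by rw [uu]; positivity
  have hbdd : IsBoundedUnder (· ≤ ·) atTop (uu k p) := by
    refine ⟨3 / 2 + 4 / (1 : ℕ), ?_⟩
    rw [eventually_map]
    filter_upwards [eventually_ge_atTop (tt p 1)] with i hi
    exact uu_le 1 i le_rfl hi
  have hcob : IsCoboundedUnder (· ≤ ·) atTop (uu k p) := by
    apply IsBoundedUnder.isCoboundedUnder_le
    exact ⟨0, by rw [eventually_map]; exact Eventually.of_forall hnn⟩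
  apply le_antisymm
  · apply le_of_forall_pos_le_add
    intro ε hε
    obtain ⟨K, hK⟩ := exists_nat_gt (4 / ε)
    have hK0 : (0 : ℝ) < K := lt_of_le_of_lt (by positivity) hK
    have hK1 : 1 ≤ K := by exact_mod_cast hK0
    apply limsup_le_of_le hcob
    filter_upwards [eventually_ge_atTop (tt p K)] with i hi
    have h1 := uu_le (k := k) (p := p) K i hK1 hi
    have h2 : 4 / (K : ℝ) ≤ ε := by
      rw [div_le_iff₀ hK0]
      rw [div_lt_iff₀ hε] at hK
      linarith
    linarith
  · apply le_limsup_of_frequently_le _ hbdd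
    rw [frequently_atTop]
    intro a
    exact ⟨2 * tt p a, by have := lt_tt hp a; omega, le_uu a⟩

lemma not_tendsto_uu : ¬ ∃ L : ℝ, Tendsto (uu k p) atTop (nhds L) := by
  have hp : 1 < p := Nat.Prime.one_lt Fact.out
  rintro ⟨L, hL⟩
  have h1 : Tendsto (fun m => uu k p (2 * tt p m)) atTop (nhds L) := by
    apply hL.comp
    exact tendsto_atTop_mono (fun t => by have := lt_tt hp t; simp only [id]; omega) tendsto_id
  have h2 : Tendsto (fun m => uu k p (tt p m - 1)) atTop (nhds L) := by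
    apply hL.comp
    exact tendsto_atTop_mono (fun t => by have := lt_tt hp t; simp only [id]; omega) tendsto_id
  have h3 : 3 / 2 ≤ L := ge_of_tendsto h1 (Eventually.of_forall fun m => le_uu m)
  have h4 : L ≤ 5 / 4 := le_of_tendsto h2 (by
    filter_upwards [eventually_ge_atTop 16] with m hm
    exact uu_small m hm)
  linarith

end

end Pool.Agent.R859.DM
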